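import Pool.Agent.Helper86.Hyp.Abs
import Pool.Agent.Helper86.Hyp.Glob
import Pool.Agent.Helper86.Hyp.Sqf

/-!
# Small points on one hundred percent of the hyperelliptic curves give small points on all of them

`IsHyp g F` and `badNorm g F` (from `Pool.Graph.R_seed8.W318.SzpDefs`) say that `y² = F(x)` is a hyperelliptic
curve of genus `g` over the number field `K` and give the product of the norms of its places of bad reduction.
-/

set_option autoImplicit false

namespace Pool.Agent.Results.MP_fe3691_nt.HundredPercentSuffices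

open Polynomial NumberField IsDedekindDomain
open Pool.Agent.W318

/-- the product of the prime numbers which lie below the places of bad reduction of `y² = F(x)` -/
noncomputable def badPrimes {K : Type} [Field K] [NumberField K] (g : ℕ) (F : K[X]) : ℕ :=
  ∏ p ∈ (badNorm g F).primeFactors, p

/-- a class of curves `y² = F(x)` over `K` which contains the quadratic twists `d y² = F(x)` of its members -/
def TwistClosed {K : Type} [Field K] (P : K[X] → Prop) : Prop :=
  ∀ (F : K[X]) (d : K), d ≠ 0 → P F → P (C d * F)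

/-- the numbers `h F` (for example: the least stable Arakelov height of a point of the curve `y² = F(x)`) do not
change when the curve is replaced by a quadratic twist -/
def TwistInvariant {K : Type} [Field K] (h : K[X] → ℝ) : Prop :=
  ∀ (F : K[X]) (d : K), d ≠ 0 → h (C d * F) = h F

/-- the integers `R ≤ Z` such that the bound `h ≤ c R` fails for a curve of genus `g` of the class `P` for which
`R` is the product of the prime numbers below the places of bad reduction -/
def Exceptional (K : Type) [Field K] [NumberField K] (g : ℕ) (P : K[X] → Prop) (h : K[X] → ℝ)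
    (c : ℕ → ℝ) (Z : ℕ) : Set ℕ :=
  {R | R ≤ Z ∧ ∃ F : K[X], IsHyp g F ∧ P F ∧ badPrimes g F = R ∧ c R < h F}

/-- the integers `R ≤ Z` which are the product of the prime numbers below the places of bad reduction of a curve of
genus `g` of the class `P` with `κ log R < h ≤ κ log Z` -/
def LogExceptional (K : Type) [Field K] [NumberField K] (g : ℕ) (P : K[X] → Prop) (h : K[X] → ℝ)
    (κ Z : ℝ) : Set ℕ :=
  {R | (R : ℝ) ≤ Z ∧ ∃ F : K[X], IsHyp g F ∧ P F ∧ badPrimes g F = R ∧
    κ * Real.log R < h F ∧ h F ≤ κ * Real.log Z}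

theorem badNorm_ne_zero {K : Type} [Field K] [NumberField K] {g : ℕ} {F : K[X]}
    (hF : IsHyp g F) : badNorm g F ≠ 0 := by
  classical
  have hfin := finite_bad hF
  rw [badNorm_eq hfin.toFinset (fun v => by simp)]
  exact Finset.prod_ne_zero_iff.mpr fun v _ => Nat.one_le_iff_ne_zero.mp (one_le_absNorm v)

theorem one_le_badPrimes {K : Type} [Field K] [NumberField K] (g : ℕ) (F : K[X]) :
    1 ≤ badPrimes g F :=
  Nat.one_le_iff_ne_zero.mpr (Finset.prod_ne_zero_iff.mpr fun p hp =>
    (Nat.prime_of_mem_primeFactors hp).ne_zero)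

theorem coprime_badNorm {K : Type} [Field K] [NumberField K] {g : ℕ} {F : K[X]}
    (hF : IsHyp g F) {D : ℕ} (h : Nat.Coprime D (badPrimes g F)) :
    Nat.Coprime D (badNorm g F) := by
  rw [Nat.coprime_comm]
  refine Nat.coprime_of_dvd fun p hp h1 h2 => ?_
  have h3 : p ∣ badPrimes g F :=
    Finset.dvd_prod_of_mem _ (Nat.mem_primeFactors.mpr ⟨hp, h1, badNorm_ne_zero hF⟩)
  have h4 : p ∣ Nat.gcd D (badPrimes g F) := Nat.dvd_gcd h2 h3
  rw [h] at h4
  exact hp.one_lt.ne' (Nat.dvd_one.mp h4)

/-- the bad primes of the twist by an integer prime to the bad primes and to the discriminant -/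
theorem badPrimes_tw {K : Type} [Field K] [NumberField K] {g : ℕ} (hg : 2 ≤ g) {F : K[X]}
    (hF : IsHyp g F) {D : ℕ} (hD : Squarefree D) (hodd : Odd D)
    (hd : Nat.Coprime D (discr K).natAbs) (hb : Nat.Coprime D (badPrimes g F)) :
    badPrimes g (C ((Helper86.Hyp.tw D : ℤ) : K) * F) = badPrimes g F * D := by
  have hb' := coprime_badNorm hF hb
  have h1 := (Helper86.Hyp.norm_tw hg hF hD hodd hd hb').1
  have hn : Module.finrank ℚ K ≠ 0 := Module.finrank_pos.ne'
  unfold badPrimes
  rw [h1, Nat.Coprime.primeFactors_mul (hb'.symm.pow_right _),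
    Finset.prod_union ((hb'.symm.pow_right _).disjoint_primeFactors), Nat.primeFactors_pow _ hn,
    Nat.prod_primeFactors_of_squarefree hD]

theorem explicit {K : Type} [Field K] [NumberField K] {g : ℕ} (hg : 2 ≤ g) {P : K[X] → Prop}
    (hP : TwistClosed P) {h : K[X] → ℝ} (hh : TwistInvariant h) (c : ℕ → ℝ) {Z : ℕ} {F : K[X]}
    (hF : IsHyp g F) (hPF : P F)
    (hZ1 : 256 * badPrimes g F ^ 3 * (discr K).natAbs ^ 2 ≤ Z)
    (hZ2 : 16 * badPrimes g F ^ 2 * (discr K).natAbs * (Exceptional K g P h c Z).ncard < Z) :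
    ∃ D : ℕ, Squarefree D ∧ Odd D ∧ Nat.Coprime D (discr K).natAbs ∧
      Nat.Coprime D (badPrimes g F) ∧ badPrimes g F * D ≤ Z ∧ h F ≤ c (badPrimes g F * D) := by
  classical
  set R := badPrimes g F with hR
  have hR1 : 1 ≤ R := one_le_badPrimes g F
  set Δ := (discr K).natAbs with hΔ
  have hΔ1 : 1 ≤ Δ := Int.natAbs_pos.mpr (discr_ne_zero K)
  by_contra hcon
  push Not at hcon
  set q := 4 * R * Δ with hq
  have hqe : Even q := ⟨2 * R * Δ, by rw [hq]; ring⟩
  have hq1 : 1 ≤ q := by
    rw [hq]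
    exact Nat.mul_pos (Nat.mul_pos (by norm_num) hR1) hΔ1
  set k := Z / (R * q) with hk
  have hRq : 0 < R * q := Nat.mul_pos hR1 hq1
  have hZ3 : 16 * q * (R * q) ≤ Z := by
    calc 16 * q * (R * q) = 256 * R ^ 3 * Δ ^ 2 := by rw [hq]; ring
      _ ≤ Z := hZ1
  have hk16 : 16 * q ≤ k := (Nat.le_div_iff_mul_le hRq).mpr hZ3
  have hkZ : R * q * k ≤ Z := Nat.mul_div_le Z (R * q)
  have hZk : Z < R * q * (k + 1) := Nat.lt_mul_div_succ Z hRq
  have hhalf := Helper86.Hyp.half_sqf hqe hk16
  set S := (Finset.range k).filter (fun i => Squarefree (1 + q * i)) with hS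
  -- all the twists are exceptional
  have hfin : (Exceptional K g P h c Z).Finite :=
    (Set.finite_Iic Z).subset fun m hm => hm.1
  have hsub : S.card ≤ (Exceptional K g P h c Z).ncard := by
    have hinj : Set.InjOn (fun i => R * (1 + q * i)) (S : Set ℕ) := by
      intro a _ b _ hab
      have h1 : 1 + q * a = 1 + q * b := Nat.eq_of_mul_eq_mul_left hR1 hab
      have h2 : q * a = q * b := by omega
      exact Nat.eq_of_mul_eq_mul_left hq1 h2
    rw [← Finset.card_image_of_injOn hinj, ← Set.ncard_coe_finset]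
    refine Set.ncard_le_ncard ?_ hfin
    intro y hy
    rw [Finset.coe_image] at hy
    obtain ⟨i, hi, rfl⟩ := hy
    rw [Finset.mem_coe, hS, Finset.mem_filter, Finset.mem_range] at hi
    obtain ⟨hi1, hi2⟩ := hi
    have hodd : Odd (1 + q * i) := by
      obtain ⟨a, ha⟩ := hqe
      exact ⟨a * i, by rw [ha]; ring⟩
    have hc1 : Nat.Coprime (1 + q * i) Δ := by
      rw [Nat.coprime_comm]
      have : q * i = Δ * (4 * R * i) := by rw [hq]; ring
      rw [this]
      simp
    have hc2 : Nat.Coprime (1 + q * i) R := by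
      rw [Nat.coprime_comm]
      have : q * i = R * (4 * Δ * i) := by rw [hq]; ring
      rw [this]
      simp
    have hle : R * (1 + q * i) ≤ Z := by
      refine le_trans ?_ hkZ
      rw [mul_assoc R q k]
      apply Nat.mul_le_mul_left
      calc 1 + q * i ≤ q + q * i := by omega
        _ = q * (i + 1) := by ring
        _ ≤ q * k := Nat.mul_le_mul_left _ hi1
    have h1 := hcon _ hi2 hodd hc1 hc2 hle
    have h0 : ((Helper86.Hyp.tw (1 + q * i) : ℤ) : K) ≠ 0 :=
      Helper86.Hyp.tw_ne_zero hi2.ne_zero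
    refine ⟨hle, _, Helper86.Hyp.isHyp_C_mul hF h0, hP F _ h0 hPF,
      badPrimes_tw hg hF hi2 hodd hc1 hc2, ?_⟩
    rw [hh F _ h0]
    exact h1
  -- counting
  have h1 : k ≤ 2 * (Exceptional K g P h c Z).ncard := hhalf.trans (Nat.mul_le_mul_left 2 hsub)
  have h2 : Z < 16 * R ^ 2 * Δ * (Exceptional K g P h c Z).ncard := by
    calc Z < R * q * (k + 1) := hZk
      _ ≤ R * q * (2 * k) := by
          apply Nat.mul_le_mul_left
          omega
      _ ≤ R * q * (2 * (2 * (Exceptional K g P h c Z).ncard)) := by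
          apply Nat.mul_le_mul_left
          exact Nat.mul_le_mul_left 2 h1
      _ = _ := by rw [hq]; ring
  exact absurd h2 (not_lt.mpr hZ2.le)

theorem computable_sum {c : ℕ → ℕ} (hc : Computable c) :
    Computable (fun n : ℕ => ∑ m ∈ Finset.range n, c m) := by
  have h1 : Computable₂ (fun (_ : ℕ) (p : ℕ × ℕ) => p.2 + c p.1) := by
    have h2 : Computable (fun x : ℕ × (ℕ × ℕ) => c x.2.1) :=
      hc.comp (Computable.fst.comp Computable.snd)
    have h3 : Computable (fun x : ℕ × (ℕ × ℕ) => x.2.2) := Computable.snd.comp Computable.snd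
    exact (Primrec.nat_add.to_comp.comp h3 h2)
  have h4 := Computable.nat_rec (f := fun n : ℕ => n) (g := fun _ : ℕ => (0 : ℕ)) Computable.id
    (Computable.const 0) h1
  refine h4.of_eq fun n => ?_
  induction n with
  | zero => simp
  | succ n ih =>
    rw [Finset.sum_range_succ, ← ih]

theorem computable_thr (Δ : ℕ) :
    Computable (fun R : ℕ => 256 * R ^ 3 * Δ ^ 2 + 16 * R ^ 2 * Δ + 1) := by
  have hid : Primrec (fun R : ℕ => R) := Primrec.id
  have h2 : Primrec (fun R : ℕ => R * R) := Primrec.nat_mul.comp hid hid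
  have h3 : Primrec (fun R : ℕ => R * R * R) := Primrec.nat_mul.comp h2 hid
  have h4 : Primrec (fun R : ℕ => (256 * Δ ^ 2) * (R * R * R)) :=
    Primrec.nat_mul.comp (Primrec.const _) h3
  have h5 : Primrec (fun R : ℕ => (16 * Δ) * (R * R)) :=
    Primrec.nat_mul.comp (Primrec.const _) h2
  have h6 : Primrec (fun R : ℕ => (256 * Δ ^ 2) * (R * R * R) + (16 * Δ) * (R * R)) :=
    Primrec.nat_add.comp h4 h5
  have h7 : Primrec (fun R : ℕ => (256 * Δ ^ 2) * (R * R * R) + (16 * Δ) * (R * R) + 1) :=
    Primrec.succ.comp h6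
  refine h7.to_comp.of_eq fun R => ?_
  ring

/-- the curves of the class -/
abbrev Obj (K : Type) [Field K] (g : ℕ) (P : K[X] → Prop) : Type := {F : K[X] // IsHyp g F ∧ P F}

theorem linear {K : Type} [Field K] [NumberField K] {g : ℕ} (hg : 2 ≤ g) {P : K[X] → Prop}
    (hP : TwistClosed P) {h : K[X] → ℝ} (hh : TwistInvariant h) {κ θ : ℝ} (hκ : 0 < κ)
    (hθ0 : 0 ≤ θ) (hθ : θ < 1)
    (hfew : ∃ A : ℝ, ∀ Z : ℝ, 1 ≤ Z →
      ((LogExceptional K g P h κ Z).ncard : ℝ) ≤ A * Z ^ θ) {κ' : ℝ} (hκ' : κ / (1 - θ) < κ') :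
    ∃ c : ℝ, ∀ F : K[X], IsHyp g F → P F → h F ≤ κ' * Real.log (badPrimes g F) + c := by
  have hD : 0 < (discr K).natAbs := Int.natAbs_pos.mpr (discr_ne_zero K)
  obtain ⟨c, hc, hb⟩ := Helper86.Hyp.barrier (α := Obj K g P) (M := fun x => badPrimes g x.1)
    (fun x => one_le_badPrimes g x.1) (Δ := fun x => Real.exp (h x.1)) (Q := (discr K).natAbs)
    (n := 1) hD (s := 0) (by
      rintro ⟨F, hF, hPF⟩ l hl h7 hld
      have h1 : Nat.Coprime l ((discr K).natAbs * badPrimes g F) :=
        (Nat.Prime.coprime_iff_not_dvd hl).mpr hld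
      have h2 : Nat.Coprime l (discr K).natAbs := Nat.Coprime.coprime_mul_right_right h1
      have h3 : Nat.Coprime l (badPrimes g F) := Nat.Coprime.coprime_mul_left_right h1
      have h6 : ((Helper86.Hyp.tw l : ℤ) : K) ≠ 0 := Helper86.Hyp.tw_ne_zero hl.ne_zero
      refine ⟨⟨_, Helper86.Hyp.isHyp_C_mul hF h6, hP F _ h6 hPF⟩, ?_, ?_⟩
      · change badPrimes g _ = badPrimes g F * l ^ 1
        rw [pow_one]
        exact badPrimes_tw hg hF hl.squarefree (hl.odd_of_ne_two (by omega)) h2 h3
      · change Real.exp (h _) = Real.exp (h F) * _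
        rw [hh F _ h6, Real.rpow_zero, mul_one]) (le_refl _) (le_refl _) (κ := κ) (θ := θ) hκ
      (by push_cast; linarith) hθ0 (by push_cast; linarith) (by
        obtain ⟨A, hA⟩ := hfew
        refine ⟨A, fun Z hZ => ?_⟩
        refine le_trans ?_ (hA Z hZ)
        have hfin : (LogExceptional K g P h κ Z).Finite :=
          (Set.finite_Iic ⌊Z⌋₊).subset fun m hm => Nat.le_floor hm.1
        have hsub : Helper86.Hyp.Exc (fun x : Obj K g P => badPrimes g x.1)
            (fun x : Obj K g P => Real.exp (h x.1)) κ Z ⊆ LogExceptional K g P h κ Z := by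
          rintro m ⟨h1, ⟨F, hF, hPF⟩, h2, h3, h4⟩
          have hm1 : 1 ≤ m := by rw [← h2]; exact one_le_badPrimes g F
          have hm0 : (0 : ℝ) < m := by exact_mod_cast hm1
          have hZ0 : (0 : ℝ) < Z := by linarith
          refine ⟨h1, F, hF, hPF, h2, ?_, ?_⟩
          · change (m : ℝ) ^ κ < Real.exp (h F) at h3
            have := Real.log_lt_log (by positivity) h3
            rwa [Real.log_rpow hm0, Real.log_exp] at this
          · change Real.exp (h F) ≤ Z ^ κ at h4
            have := Real.log_le_log (Real.exp_pos _) h4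
            rwa [Real.log_rpow hZ0, Real.log_exp] at this
        exact_mod_cast Set.ncard_le_ncard hsub hfin) (κ' := κ') (by
        refine lt_of_le_of_lt (le_of_eq ?_) hκ'
        push_cast
        congr 1 <;> ring)
  refine ⟨Real.log c, fun F hF hPF => ?_⟩
  have h1 := hb ⟨F, hF, hPF⟩
  change Real.exp (h F) ≤ c * (badPrimes g F : ℝ) ^ κ' at h1
  have hm0 : (0 : ℝ) < badPrimes g F := by exact_mod_cast one_le_badPrimes g F
  have h2 := Real.log_le_log (Real.exp_pos _) h1
  rw [Real.log_exp, Real.log_mul hc.ne' (by positivity), Real.log_rpow hm0] at h2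
  linarith

/-- **Theorem.** Let `K` be a number field with discriminant `δ`, `g ≥ 2`, `P` a class of hyperelliptic curves over
`K` which is closed under quadratic twists (for example: all of them) and `h` a real function of the curve which does
not change under quadratic twists, for example the least stable Arakelov height of a point of the curve over the
algebraic closure of `K`. Let `R_C` be the product of the prime numbers below the places of bad reduction of `C`.

(1) For a curve `C` and an odd squarefree `D` prime to `R_C` and to `δ` one of the twists by `D`, `-D` has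
`R = R_C D`.

(2) Let `c` be a function on the natural numbers and `Z ≥ 256 R_C ^ 3 δ ^ 2`. If `h ≤ c R` fails, for curves of `P` of
genus `g`, for fewer than `Z / (16 R_C ^ 2 |δ|)` of the integers `R ≤ Z`, then `h(C) ≤ c (R_C D)` for some `D` with
`R_C D ≤ Z`.

(3) Let `c` be computable and let `h ≤ c R` be true for one hundred percent of the `R`, on a computable sequence of
scales: there is a computable `z` with `z k ≥ k` such that it fails for at most `z k / k` of the integers
`R ≤ z k`. Then there is a computable `b` with `h ≤ b R` for ALL curves of `P` of genus `g`.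

(4) Let `κ > 0` and `0 ≤ θ < 1`. If the number of the `R ≤ Z` for which there is a curve with
`κ log R < h ≤ κ log Z` is `O(Z ^ θ)`, then `h ≤ κ' log R + O(1)` for ALL curves of `P` of genus `g`, for each
`κ' > κ / (1 - θ)`. -/
theorem result (K : Type) [Field K] [NumberField K] (g : ℕ) (hg : 2 ≤ g) (P : K[X] → Prop)
    (hP : TwistClosed P) (h : K[X] → ℝ) (hh : TwistInvariant h) :
    (∀ F : K[X], IsHyp g F → ∀ D : ℕ, Squarefree D → Odd D → Nat.Coprime D (discr K).natAbs →
      Nat.Coprime D (badPrimes g F) → ∃ d : ℤ, d.natAbs = D ∧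
        badPrimes g (C (d : K) * F) = badPrimes g F * D) ∧
    (∀ (c : ℕ → ℝ) (Z : ℕ) (F : K[X]), IsHyp g F → P F →
      256 * badPrimes g F ^ 3 * (discr K).natAbs ^ 2 ≤ Z →
      16 * badPrimes g F ^ 2 * (discr K).natAbs * (Exceptional K g P h c Z).ncard < Z →
      ∃ D : ℕ, badPrimes g F * D ≤ Z ∧ h F ≤ c (badPrimes g F * D)) ∧
    (∀ c z : ℕ → ℕ, Computable c → Computable z →
      (∀ k : ℕ, k ≤ z k ∧
        k * (Exceptional K g P h (fun R => (c R : ℝ)) (z k)).ncard ≤ z k) →
      ∃ b : ℕ → ℕ, Computable b ∧ ∀ F : K[X], IsHyp g F → P F → h F ≤ b (badPrimes g F)) ∧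
    (∀ κ θ : ℝ, 0 < κ → 0 ≤ θ → θ < 1 →
      (∃ A : ℝ, ∀ Z : ℝ, 1 ≤ Z →
        ((LogExceptional K g P h κ Z).ncard : ℝ) ≤ A * Z ^ θ) →
      ∀ κ' : ℝ, κ / (1 - θ) < κ' →
        ∃ c : ℝ, ∀ F : K[X], IsHyp g F → P F → h F ≤ κ' * Real.log (badPrimes g F) + c) := by
  refine ⟨?_, ?_, ?_, ?_⟩
  · intro F hF D hD hodd hd hb
    refine ⟨Helper86.Hyp.tw D, ?_, badPrimes_tw hg hF hD hodd hd hb⟩
    unfold Helper86.Hyp.tw
    split_ifs <;> simp
  · intro c Z F hF hPF hZ1 hZ2
    obtain ⟨D, _, _, _, _, h1, h2⟩ := explicit hg hP hh c hF hPF hZ1 hZ2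
    exact ⟨D, h1, h2⟩
  · intro c z hc hz hyp
    refine ⟨fun R => ∑ m ∈ Finset.range
      (z (256 * R ^ 3 * (discr K).natAbs ^ 2 + 16 * R ^ 2 * (discr K).natAbs + 1) + 1), c m,
      (computable_sum hc).comp (Computable.succ.comp (hz.comp (computable_thr _))), ?_⟩
    intro F hF hPF
    set R := badPrimes g F with hR
    set Δ := (discr K).natAbs with hΔ
    obtain ⟨h1, h2⟩ := hyp (256 * R ^ 3 * Δ ^ 2 + 16 * R ^ 2 * Δ + 1)
    set k := 256 * R ^ 3 * Δ ^ 2 + 16 * R ^ 2 * Δ + 1 with hk
    set N := (Exceptional K g P h (fun R => (c R : ℝ)) (z k)).ncard with hN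
    have h3 : 256 * R ^ 3 * Δ ^ 2 ≤ z k := by omega
    have h4 : 16 * R ^ 2 * Δ * N < z k := by
      rcases Nat.eq_zero_or_pos N with h0 | h0
      · rw [h0, mul_zero]
        omega
      · refine lt_of_lt_of_le ?_ h2
        apply Nat.mul_lt_mul_of_pos_right _ h0
        omega
    obtain ⟨D, _, _, _, _, h5, h6⟩ := explicit hg hP hh (fun R => (c R : ℝ)) hF hPF h3 h4
    refine h6.trans ?_
    have h7 : c (R * D) ≤ ∑ m ∈ Finset.range (z k + 1), c m :=
      Finset.single_le_sum (f := c) (fun _ _ => Nat.zero_le _)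
        (Finset.mem_range.mpr (Nat.lt_succ_of_le h5))
    exact_mod_cast h7
  · intro κ θ hκ hθ0 hθ hfew κ' hκ'
    exact linear hg hP hh hκ hθ0 hθ hfew hκ'

end Pool.Agent.Results.MP_fe3691_nt.HundredPercentSuffices
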