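import Pool.Agent.Helper98.RA.Count
import Pool.Agent.Helper98.RA.Half

/-!
# Szpiro's small points conjecture: randomised algorithms, lists and changes of mind

Fix `g ≥ 2`. Numbers are used as codes: `k` for pairs `(K, S)` (a number field in a fixed algebraic closure
of `ℚ` and a finite set of finite places), `x` for semi-stable curves `X` of genus `g` over `K` with good
reduction outside `S`, and `y` for the points in `X(K̄)`. An algorithm is a computable function (Mathlib's
`Computable`). Question Q1 for the genus `g` says that there is an algorithm which computes from `K` and `S`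
a number `c` such that each of these curves has a point of stable Arakelov height at most `c`. (A bound for
the curves with good reduction outside `S` is one for those with set of bad places `S`, and the maximum of
the bounds for the subsets of `S` is one for the curves with good reduction outside `S`.)

**Theorem.** Q1 for the genus `g` has the answer yes if and only if there are a `δ > 0` and a randomised
algorithm which for more than half of the pairs `(K', S')` among the first `M(K, S)` terms of a sequence of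
extensions of `(K, S)` (any computable sequence and any computable `M ≥ 1`) halts with a probability of at
least `δ` with a number `c` such that the Jacobian of each of the curves over `K'` is isogenous to the
Jacobian of one of these curves which has a point of height at most `c`. The same for randomised algorithms
which find the number of curves, or of isogeny classes of Jacobians, for algorithms which list at most `q`
numbers one of which is such a `c`, and for algorithms which change their mind about such a `c` at most `q`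
times.
-/

set_option autoImplicit false

namespace Pool.Agent.Results.MP_fe3691_nt.RandomisedAlgorithms

open Pool.Agent.Q49.EF Pool.Agent.Q328.AC Pool.Agent.Helper98.RA

/-- Semi-stable curves of genus `g` over number fields. -/
structure Setting where
  /-- `Good k x`: `x` is the least code of a curve of genus `g` over `K` (isomorphic curves are
  identified) with semi-stable reduction over the integers of `K` and with good reduction outside `S`;
  here `k` is the code of `(K, S)` -/
  Good : ℕ → ℕ → Prop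
  /-- `pt x y`: the stable Arakelov height `h` of the point with code `y` in `X(K̄)`, where `x` is the
  code of `X` -/
  pt : ℕ → ℕ → ℝ
  /-- the stable self-intersection number `(ω, ω)`, divided by the degree of the field -/
  w : ℕ → ℝ
  /-- the stable Faltings height of the Jacobian of the curve -/
  hF : ℕ → ℝ
  /-- `Le k k'`: the field `K'` of the pair `(K', S')` with code `k'` contains the field `K` of the pair
  `(K, S)` with code `k`, and `S'` contains the places above `S` -/
  Le : ℕ → ℕ → Prop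
  /-- the Jacobians of the curves are isogenous over `K` -/
  Isog : ℕ → ℕ → Prop
  /-- `frob (k, x)`: the code of the list of the characteristic polynomials of Frobenius for the
  Jacobian of the curve at the places in a certain finite set of places of `K`, see `faltings` -/
  frob : ℕ × ℕ → ℕ

/-- The known facts. -/
structure IsSetting (g : ℕ) (D : Setting) : Prop where
  /-- one can decide isomorphism, semi-stability, bad reduction and being a curve of genus `g` -/
  decidable : ComputablePred fun z : ℕ × ℕ => D.Good z.1 z.2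
  /-- Faltings (Shafarevich conjecture) -/
  finite : ∀ k, {x | D.Good k x}.Finite
  /-- Faltings: `(ω, ω) ≤ 4 g (g - 1) (ω, x)` for all points `x` -/
  hodge : ∀ k x y, D.Good k x → D.w x ≤ 4 * g * (g - 1) * D.pt x y
  /-- Zhang: there are points `x` with `(ω, x) ≤ (ω, ω) / (2 g - 2) + 1` -/
  zhang : ∀ k x, D.Good k x → ∃ y, D.pt x y ≤ D.w x / (2 * g - 2) + 1
  /-- Noether's formula and the lower bound for the delta invariant -/
  noether : ∃ c : ℕ, ∀ k x, D.Good k x → D.w x ≤ 12 * D.hF x + c
  /-- uniform Bogomolov theorem: Dimitrov, Gao and Habegger; Kühne; Yuan -/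
  bogomolov : ∃ c : ℕ, ∀ k x, D.Good k x → D.hF x ≤ c * D.w x
  /-- upper bounds for the Faltings height of a given curve can be computed -/
  upper : ∃ u : ℕ → ℕ, Computable u ∧ ∀ k x, D.Good k x → D.hF x ≤ u x
  /-- curves with good reduction outside `S` and with bounded height can be found effectively -/
  northcott : ∃ B : ℕ × ℕ → ℕ, Computable B ∧ ∀ k m x : ℕ, D.Good k x → D.hF x ≤ m → x < B (k, m)
  frob_computable : Computable D.frob
  /-- Faltings (Tate conjecture) -/
  faltings : ∀ k x y, D.Good k x → D.Good k y → (D.frob (k, x) = D.frob (k, y) ↔ D.Isog x y)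
  /-- the isogeny theorem (Masser and Wüstholz; Gaudron and Rémond) -/
  isogeny : ∃ κ : ℕ × ℕ → ℕ, Computable κ ∧ ∀ k m x y : ℕ, D.Good k x → D.Good k y → D.Isog x y →
    D.hF y ≤ m → D.hF x ≤ κ (k, m)
  le_decidable : ComputablePred fun z : ℕ × ℕ => D.Le z.1 z.2
  le_refl : ∀ k, D.Le k k
  /-- the compositum of two fields, with the places above those in the two sets, can be computed -/
  compositum : ∃ j : ℕ × ℕ → ℕ, Computable j ∧ ∀ k s, D.Le k (j (k, s)) ∧ D.Le s (j (k, s))
  /-- base change: the curves over `K` and over `K'` have the same points with the same heights -/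
  base_change : ∀ k k' x, D.Le k k' → D.Good k x → ∃ x', D.Good k' x' ∧
    Set.range (D.pt x') = Set.range (D.pt x)

/-- each of the curves over `K` has a point of height at most `c` -/
def SmallPoints (D : Setting) (k : ℕ) (c : ℕ) : Prop := ∀ x, D.Good k x → ∃ y, D.pt x y ≤ c

/-- for each of the curves over `K` there is another one with an isogenous Jacobian and with a point of
height at most `c` -/
def IsogSmallPoints (D : Setting) (k : ℕ) (c : ℕ) : Prop :=
  ∀ x, D.Good k x → ∃ x', D.Good k x' ∧ D.Isog x x' ∧ ∃ y, D.pt x' y ≤ c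

/-- the isogeny classes of the Jacobians of the curves over `K`, seen as sets of curves -/
def classes (D : Setting) (k : ℕ) : Set (Set ℕ) :=
  {T | ∃ x, D.Good k x ∧ T = {y | D.Good k y ∧ D.Isog x y}}

/-- for all `k`, more than half of the first `M k` terms of the sequence `b (k, 0), b (k, 1), …` have the
property `P` -/
def MoreThanHalf (b : ℕ × ℕ → ℕ) (M : ℕ → ℕ) (P : ℕ → Prop) : Prop :=
  ∀ k, M k < 2 * {i | i < M k ∧ P (b (k, i))}.ncard

variable {D : Setting} {g : ℕ}

lemma range_le {a b : ℕ → ℝ} (h : Set.range a = Set.range b) {m : ℝ} (hb : ∃ y, a y ≤ m) :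
    ∃ y, b y ≤ m := by
  obtain ⟨y, hy⟩ := hb
  obtain ⟨z, hz⟩ : a y ∈ Set.range b := h ▸ Set.mem_range_self y
  exact ⟨z, hz ▸ hy⟩

/-- a small point bounds the Faltings height -/
lemma small (hD : IsSetting g D) (hg : 2 ≤ g) : ∃ a : ℕ, ∀ k x m : ℕ, D.Good k x →
    (∃ y, D.pt x y ≤ m) → D.hF x ≤ (a * m : ℕ) := by
  obtain ⟨c, hc⟩ := hD.bogomolov
  have hg' : (2 : ℝ) ≤ g := by exact_mod_cast hg
  refine ⟨(c + 1) * (4 * g * g), fun k x m hx ⟨y, hy⟩ => ?_⟩
  have h1 := hD.hodge k x y hx
  have h2 : 4 * (g : ℝ) * (g - 1) * D.pt x y ≤ 4 * g * (g - 1) * m :=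
    mul_le_mul_of_nonneg_left hy (by nlinarith)
  have hm : (0 : ℝ) ≤ m := Nat.cast_nonneg _
  have h3 : 4 * (g : ℝ) * (g - 1) * m ≤ 4 * g * g * m := by
    nlinarith [mul_nonneg (by linarith : (0:ℝ) ≤ g) hm]
  have h4 : D.w x ≤ 4 * g * g * m := by linarith
  have hc0 : (0 : ℝ) ≤ c := Nat.cast_nonneg _
  have h5 : (0 : ℝ) ≤ 4 * g * g * m := by positivity
  have h6 := hc k x hx
  have h7 : (c : ℝ) * D.w x ≤ c * (4 * g * g * m) := mul_le_mul_of_nonneg_left h4 hc0
  push_cast
  nlinarith

/-- a curve with a Jacobian of bounded height has a small point -/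
lemma back (hD : IsSetting g D) (hg : 2 ≤ g) : ∃ e : ℕ, ∀ k x m : ℕ, D.Good k x →
    D.hF x ≤ m → ∃ y, D.pt x y ≤ (12 * m + e : ℕ) := by
  obtain ⟨c, hc⟩ := hD.noether
  have hg' : (2 : ℝ) ≤ g := by exact_mod_cast hg
  refine ⟨c + 1, fun k x m hx hm => ?_⟩
  obtain ⟨y, hy⟩ := hD.zhang k x hx
  refine ⟨y, hy.trans ?_⟩
  have h1 := hc k x hx
  have h2 : D.w x ≤ 12 * m + c := by linarith
  have h3 : (0 : ℝ) ≤ 12 * m + c := by positivity
  have h4 : D.w x / (2 * g - 2) ≤ 12 * m + c := by
    rw [div_le_iff₀ (by linarith)]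
    nlinarith
  push_cast
  linarith

lemma isog_refl (hD : IsSetting g D) {k x : ℕ} (hx : D.Good k x) : D.Isog x x :=
  (hD.faltings k x x hx hx).mp rfl

lemma isog_of_small (hD : IsSetting g D) {k c : ℕ} (h : SmallPoints D k c) : IsogSmallPoints D k c :=
  fun x hx => ⟨x, hx, isog_refl hD hx, h x hx⟩

lemma small_mono {k c c' : ℕ} (h : SmallPoints D k c) (hc : c ≤ c') : SmallPoints D k c' := by
  intro x hx
  obtain ⟨y, hy⟩ := h x hx
  exact ⟨y, hy.trans (by exact_mod_cast hc)⟩

lemma isog_mono {k c c' : ℕ} (h : IsogSmallPoints D k c) (hc : c ≤ c') : IsogSmallPoints D k c' := by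
  intro x hx
  obtain ⟨x', h1, h2, y, hy⟩ := h x hx
  exact ⟨x', h1, h2, y, hy.trans (by exact_mod_cast hc)⟩

lemma small_up (hD : IsSetting g D) {k k' c : ℕ} (hk : D.Le k k') (h : SmallPoints D k' c) :
    SmallPoints D k c := by
  intro x hx
  obtain ⟨x', h1, h2⟩ := hD.base_change k k' x hk hx
  exact range_le h2 (h x' h1)

/-- from isogenous curves to all curves -/
lemma small_of_isog (hD : IsSetting g D) (hg : 2 ≤ g) : ∃ κ : ℕ × ℕ → ℕ, Computable κ ∧
    ∀ k c, IsogSmallPoints D k c → SmallPoints D k (κ (k, c)) := by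
  obtain ⟨a, ha⟩ := small hD hg
  obtain ⟨e, he⟩ := back hD hg
  obtain ⟨κ, h1, h2⟩ := hD.isogeny
  have e1 : Computable fun z : ℕ × ℕ => κ (z.1, a * z.2) :=
    h1.comp (Computable.pair Computable.fst
      ((Primrec.nat_mul.comp (Primrec.const a) Primrec.snd).to_comp))
  have e2 : Primrec fun m : ℕ => 12 * m + e :=
    Primrec.nat_add.comp (Primrec.nat_mul.comp (Primrec.const 12) Primrec.id) (Primrec.const e)
  refine ⟨fun z => 12 * κ (z.1, a * z.2) + e, e2.to_comp.comp e1, fun k c h x hx => ?_⟩
  obtain ⟨x', h3, h4, h5⟩ := h x hx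
  exact he k x _ hx (h2 k _ x x' hx h3 h4 (ha k x' c h3 h5))

lemma directed (hD : IsSetting g D) (hg : 2 ≤ g) : ∃ m : ℕ × ℕ → ℕ,
    Helper98.RA.Directed (SmallPoints D) m := by
  classical
  obtain ⟨p, hp, hp'⟩ := ComputablePred.computable_iff.mp hD.decidable
  have hpi : ∀ a x, p (a, x) = true ↔ D.Good a x := fun a x => (iff_of_eq (congrFun hp' (a, x))).symm
  obtain ⟨l, hl, hl'⟩ := ComputablePred.computable_iff.mp hD.le_decidable
  have hli : ∀ a x, l (a, x) = true ↔ D.Le a x := fun a x => (iff_of_eq (congrFun hl' (a, x))).symm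
  obtain ⟨u, hu, hu'⟩ := hD.upper
  obtain ⟨B, hB, hB'⟩ := hD.northcott
  obtain ⟨a₀, ha₀⟩ := small hD hg
  obtain ⟨e, he⟩ := back hD hg
  obtain ⟨j, hj, hj'⟩ := hD.compositum
  have hBs : Computable fun z : ℕ × ℕ => B (z.1, a₀ * z.2) :=
    hB.comp (Computable.pair Computable.fst
      ((Primrec.nat_mul.comp (Primrec.const a₀) Primrec.snd).to_comp))
  have e2 : Primrec fun m : ℕ => 12 * m + e :=
    Primrec.nat_add.comp (Primrec.nat_mul.comp (Primrec.const 12) Primrec.id) (Primrec.const e)
  have hmx : Computable fun z : ℕ × ℕ =>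
      mx (fun w : (ℕ × ℕ) × ℕ => u w.2) z (B (z.1, a₀ * z.2)) :=
    mx_comp (hu.comp Computable.snd) hBs
  refine ⟨fun z => cond (l z) z.2 z.1,
    ⟨fun k c => ∀ x, D.Good k x → x < B (k, a₀ * c),
      fun z => 12 * mx (fun w : (ℕ × ℕ) × ℕ => u w.2) z (B (z.1, a₀ * z.2)) + e,
      fun w => p (w.1.1, w.2) && decide (B (w.1.1, a₀ * w.1.2) ≤ w.2),
      e2.to_comp.comp hmx, ?_, ?_, ?_, ?_⟩, ?_, ?_, ?_⟩
  · exact Primrec.and.to_comp.comp
      (hp.comp (Computable.pair (Computable.fst.comp Computable.fst) Computable.snd))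
      (le_computable (hBs.comp Computable.fst) Computable.snd)
  · intro k c h x hx
    exact hB' _ _ _ hx (ha₀ k x c hx (h x hx))
  · intro k c h x hx
    refine he k x _ hx ((hu' k x hx).trans ?_)
    exact_mod_cast le_mx (fun w : (ℕ × ℕ) × ℕ => u w.2) (k, c) (h x hx)
  · intro k c
    simp only [not_forall, not_lt, Bool.and_eq_true, decide_eq_true_eq, hpi]
    constructor
    · rintro ⟨x, h1, h2⟩
      exact ⟨x, h1, h2⟩
    · rintro ⟨x, h1, h2⟩
      exact ⟨x, h1, h2⟩
  · exact Computable.cond hl Computable.snd Computable.fst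
  · intro k i c h
    cases h1 : l (k, i) with
    | true =>
      simp only [h1, cond_true] at h
      exact small_up hD ((hli k i).mp h1) h
    | false =>
      simp only [h1, cond_false] at h
      exact h
  · intro s
    refine ⟨fun k => j (k, s), hj.comp (Computable.pair Computable.id (Computable.const s)),
      fun k c h => ?_⟩
    have h1 : l (s, j (k, s)) = true := (hli _ _).mpr (hj' k s).2
    simp only [h1, cond_true] at h
    exact small_up hD (hj' k s).1 h

lemma half_of_forall {b : ℕ × ℕ → ℕ} {M : ℕ → ℕ} (hM : ∀ k, 1 ≤ M k) {P : ℕ → Prop} (h : ∀ k, P k) :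
    MoreThanHalf b M P := by
  intro k
  have h1 : {i | i < M k ∧ P (b (k, i))} = (Finset.range (M k) : Set ℕ) := by
    ext i
    simp [h]
  rw [h1, Set.ncard_coe_finset, Finset.card_range]
  have := hM k
  omega

lemma half_mono {b : ℕ × ℕ → ℕ} {M : ℕ → ℕ} {P Q : ℕ → Prop} (h : ∀ k, P k → Q k)
    (hP : MoreThanHalf b M P) : MoreThanHalf b M Q := by
  intro k
  refine (hP k).trans_le (Nat.mul_le_mul_left _ (Set.ncard_le_ncard ?_ ?_))
  · rintro i ⟨h1, h2⟩
    exact ⟨h1, h _ h2⟩
  · exact (Set.finite_lt_nat (M k)).subset fun i hi => hi.1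

/-- lists of candidates for more than half of the pairs -/
theorem of_half (hD : IsSetting g D) (hg : 2 ≤ g) {b : ℕ × ℕ → ℕ} (hb : Computable b)
    (hbk : ∀ k i, D.Le k (b (k, i))) {M : ℕ → ℕ} (hM : Computable M) {q : ℕ}
    {E : ℕ × ℕ → Option ℕ} (hE : Computable E)
    (h : MoreThanHalf b M fun k => AtMost q E k ∧ ∃ n c, E (k, n) = some c ∧ IsogSmallPoints D k c) :
    ∃ c : ℕ → ℕ, Computable c ∧ ∀ k, SmallPoints D k (c k) := by
  classical
  obtain ⟨κ, h1, h2⟩ := small_of_isog hD hg
  obtain ⟨m, hm⟩ := directed hD hg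
  have hE' : Computable fun z : ℕ × ℕ => (E z).map fun c => κ (z.1, c) :=
    Computable.option_map hE (h1.comp (Computable.pair (Computable.fst.comp Computable.fst)
      Computable.snd))
  obtain ⟨E', h3, h4⟩ := list_of_half (k := q) (V := SmallPoints D)
    (fun k c c' h2 h3 => small_mono h2 h3) hE' hM hb (fun k i c h => small_up hD (hbk k i) h)
    (fun k => by
      refine (h k).trans_le (Nat.mul_le_mul_left 2 ?_)
      rw [← Set.ncard_coe_finset]
      refine Set.ncard_le_ncard ?_ (Finset.finite_toSet _)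
      rintro i ⟨h5, ⟨S, hS, h6⟩, n, c, h7, h8⟩
      rw [Finset.mem_coe, Finset.mem_filter, Finset.mem_range]
      refine ⟨h5, ⟨S.image fun c => κ (b (k, i), c), Finset.card_image_le.trans hS, ?_⟩, n,
        κ (b (k, i), c), ?_, h2 _ _ h8⟩
      · intro n c hc
        rw [Option.map_eq_some_iff] at hc
        obtain ⟨c', h9, h10⟩ := hc
        exact Finset.mem_image.mpr ⟨c', h6 n c' h9, h10⟩
      · rw [h7]
        rfl)
  exact bound_of_list hm (2 * q + 1) E' h3 h4

/-- the least curves in their isogeny classes -/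
def leastOf (p : ℕ × ℕ → Bool) (f : ℕ × ℕ → ℕ) (z : ℕ × ℕ) : Bool :=
  p z && !(ex (fun w : (ℕ × ℕ) × ℕ => p (w.1.1, w.2) && (f (w.1.1, w.2) == f w.1)) z z.2)

lemma leastOf_computable {p : ℕ × ℕ → Bool} (hp : Computable p) {f : ℕ × ℕ → ℕ} (hf : Computable f) :
    Computable (leastOf p f) := by
  have e0 : Computable fun w : (ℕ × ℕ) × ℕ => (w.1.1, w.2) :=
    Computable.pair (Computable.fst.comp Computable.fst) Computable.snd
  have e1 : Computable fun w : (ℕ × ℕ) × ℕ => p (w.1.1, w.2) && (f (w.1.1, w.2) == f w.1) :=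
    Primrec.and.to_comp.comp (hp.comp e0)
      (Primrec.beq.to_comp.comp (hf.comp e0) (hf.comp Computable.fst))
  exact Primrec.and.to_comp.comp hp
    (Primrec.not.to_comp.comp ((ex_computable e1).comp (Computable.pair Computable.id Computable.snd)))

lemma leastOf_iff {p : ℕ × ℕ → Bool} {f : ℕ × ℕ → ℕ} {k x : ℕ} : leastOf p f (k, x) = true ↔
    p (k, x) = true ∧ ∀ y < x, p (k, y) = true → f (k, y) ≠ f (k, x) := by
  unfold leastOf
  rw [Bool.and_eq_true, Bool.not_eq_true', ← Bool.not_eq_true, ex_iff]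
  simp only [Bool.and_eq_true, beq_iff_eq, not_exists, not_and, ne_eq]

/-- every curve is isogenous to the least one in its class -/
lemma exists_least {p : ℕ × ℕ → Bool} {f : ℕ × ℕ → ℕ} {k x : ℕ} (hx : p (k, x) = true) :
    ∃ y, leastOf p f (k, y) = true ∧ f (k, y) = f (k, x) := by
  classical
  have h : ∃ y, p (k, y) = true ∧ f (k, y) = f (k, x) := ⟨x, hx, rfl⟩
  refine ⟨Nat.find h, leastOf_iff.mpr ⟨(Nat.find_spec h).1, fun y hy h1 h2 => ?_⟩,
    (Nat.find_spec h).2⟩
  exact Nat.find_min h hy ⟨h1, h2.trans (Nat.find_spec h).2⟩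

lemma classes_ncard (hD : IsSetting g D) {p : ℕ × ℕ → Bool}
    (hpi : ∀ a x, p (a, x) = true ↔ D.Good a x) (k : ℕ) :
    {x | leastOf p D.frob (k, x) = true}.ncard = (classes D k).ncard := by
  classical
  refine Set.ncard_congr (fun x _ => {y | D.Good k y ∧ D.Isog x y}) ?_ ?_ ?_
  · intro x hx
    exact ⟨x, (hpi k x).mp (leastOf_iff.mp hx).1, rfl⟩
  · intro x y hx hy h
    have h1 := leastOf_iff.mp hx
    have h2 := leastOf_iff.mp hy
    have gx := (hpi k x).mp h1.1
    have gy := (hpi k y).mp h2.1
    have h3 : y ∈ {z | D.Good k z ∧ D.Isog x z} := by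
      rw [h]
      exact ⟨gy, isog_refl hD gy⟩
    have h4 : D.frob (k, x) = D.frob (k, y) := (hD.faltings k x y gx gy).mpr h3.2
    by_contra hne
    rcases Nat.lt_or_gt_of_ne hne with h5 | h5
    · exact h2.2 x h5 h1.1 h4
    · exact h1.2 y h5 h2.1 h4.symm
  · rintro T ⟨x, hx, rfl⟩
    obtain ⟨y, h1, h2⟩ := exists_least (f := D.frob) ((hpi k x).mpr hx)
    have gy : D.Good k y := (hpi k y).mp (leastOf_iff.mp h1).1
    refine ⟨y, h1, ?_⟩
    ext z
    simp only [Set.mem_ofPred_eq]
    constructor
    · rintro ⟨h3, h4⟩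
      exact ⟨h3, (hD.faltings k x z hx h3).mp (h2.symm.trans ((hD.faltings k y z gy h3).mpr h4))⟩
    · rintro ⟨h3, h4⟩
      exact ⟨h3, (hD.faltings k y z gy h3).mp (h2.trans ((hD.faltings k x z hx h3).mpr h4))⟩

/-- **Szpiro's small points conjecture: randomised algorithms are enough.** Let `b` be a computable
sequence of extensions of `(K, S)` and let `M ≥ 1` be computable. The following are equivalent.
1. Question Q1 for the genus `g`.
2. For some `q` an algorithm lists for more than half of the first `M` extensions `(K', S')` of `(K, S)`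
  at most `q` numbers, for one of which, `c`, every curve over `K'` has a Jacobian isogenous to that of a
  curve over `K'` with a point of height at most `c`.
3. For some `q` an algorithm gives for more than half of the first `M` extensions a sequence of numbers
  which changes at most `q` times and ends with such a `c`.
4. For some `δ > 0` a randomised algorithm halts for more than half of the first `M` extensions with a
  probability of at least `δ` with such a `c`.
5. The same with the number of these curves.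
6. The same with the number of isogeny classes of their Jacobians. -/
theorem result (hg : 2 ≤ g) (hD : IsSetting g D) {b : ℕ × ℕ → ℕ} (hb : Computable b)
    (hbk : ∀ k i, D.Le k (b (k, i))) {M : ℕ → ℕ} (hM : Computable M) (hM1 : ∀ k, 1 ≤ M k) :
    List.TFAE [
    ∃ c : ℕ → ℕ, Computable c ∧ ∀ k, SmallPoints D k (c k),
    ∃ (q : ℕ) (E : ℕ × ℕ → Option ℕ), Computable E ∧ MoreThanHalf b M fun k =>
      {c | ∃ n, E (k, n) = some c}.encard ≤ q ∧ ∃ n c, E (k, n) = some c ∧ IsogSmallPoints D k c,
    ∃ (q : ℕ) (G : ℕ × ℕ → ℕ), Computable G ∧ MoreThanHalf b M fun k =>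
      {n | G (k, n + 1) ≠ G (k, n)}.encard ≤ q ∧ ∃ m, ∀ n, m ≤ n → IsogSmallPoints D k (G (k, n)),
    ∃ δ : ℝ, 0 < δ ∧ ∃ R : ℕ × (ℕ × ℕ) → Option ℕ, IsRandomised R ∧ MoreThanHalf b M fun k =>
      δ ≤ prob R k (IsogSmallPoints D k),
    ∃ δ : ℝ, 0 < δ ∧ ∃ R : ℕ × (ℕ × ℕ) → Option ℕ, IsRandomised R ∧ MoreThanHalf b M fun k =>
      δ ≤ prob R k fun m => {x | D.Good k x}.ncard = m,
    ∃ δ : ℝ, 0 < δ ∧ ∃ R : ℕ × (ℕ × ℕ) → Option ℕ, IsRandomised R ∧ MoreThanHalf b M fun k =>
      δ ≤ prob R k fun m => (classes D k).ncard = m] := by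
  classical
  obtain ⟨p, hp, hp'⟩ := ComputablePred.computable_iff.mp hD.decidable
  have hpi : ∀ a x, p (a, x) = true ↔ D.Good a x := fun a x => (iff_of_eq (congrFun hp' (a, x))).symm
  have hps : ∀ a, {x | D.Good a x} = {x | p (a, x) = true} := fun a =>
    Set.ext fun x => (hpi a x).symm
  have hpf : ∀ a, {x | p (a, x) = true}.Finite := fun a => hps a ▸ hD.finite a
  obtain ⟨u, hu, hu'⟩ := hD.upper
  obtain ⟨a₀, ha₀⟩ := small hD hg
  obtain ⟨e, he⟩ := back hD hg
  have e2 : Primrec fun m : ℕ => 12 * m + e :=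
    Primrec.nat_add.comp (Primrec.nat_mul.comp (Primrec.const 12) Primrec.id) (Primrec.const e)
  have hue : Computable fun z : ℕ × ℕ => 12 * u z.2 + e := e2.to_comp.comp (hu.comp Computable.snd)
  have hlc := leastOf_computable hp hD.frob_computable
  have hlf : ∀ a, {x | leastOf p D.frob (a, x) = true}.Finite := fun a =>
    (hpf a).subset fun x hx => (leastOf_iff.mp hx).1
  tfae_have 1 → 3 := by
    rintro ⟨c, h1, h2⟩
    refine ⟨0, fun z => c z.1, h1.comp Computable.fst, half_of_forall hM1 fun k =>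
      ⟨?_, 0, fun _ _ => isog_of_small hD (h2 k)⟩⟩
    simp
  tfae_have 3 → 2 := by
    rintro ⟨q, G, h1, h2⟩
    refine ⟨q + 1, fun z => some (G z), Computable.option_some.comp h1, half_mono ?_ h2⟩
    rintro k ⟨h3, m, h4⟩
    exact ⟨encard_of_atMost (atMost_of_changes h3), m, _, rfl, h4 m le_rfl⟩
  tfae_have 2 → 1 := by
    rintro ⟨q, E, h1, h2⟩
    exact of_half hD hg hb hbk hM h1 (half_mono (fun k h => ⟨atMost_of_encard h.1, h.2⟩) h2)
  tfae_have 1 → 5 := by
    rintro ⟨c, h1, h2⟩
    obtain ⟨B, h3, h4⟩ := hD.northcott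
    obtain ⟨n, h5, h6⟩ := card_of_bound hp
      (h3.comp (Computable.pair Computable.id ((Primrec.nat_mul.comp (Primrec.const a₀)
        Primrec.id).to_comp.comp h1)) : Computable fun k => B (k, a₀ * c k))
      fun k x hx => h4 k _ x ((hpi k x).mp hx) (ha₀ k x _ ((hpi k x).mp hx) (h2 k x ((hpi k x).mp hx)))
    refine ⟨1, one_pos, fun z => some (n z.1), const_random h5, half_of_forall hM1 fun k => ?_⟩
    refine const_prob ?_
    rw [hps]
    exact h6 k
  tfae_have 1 → 6 := by
    rintro ⟨c, h1, h2⟩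
    obtain ⟨B, h3, h4⟩ := hD.northcott
    obtain ⟨n, h5, h6⟩ := card_of_bound hlc
      (h3.comp (Computable.pair Computable.id ((Primrec.nat_mul.comp (Primrec.const a₀)
        Primrec.id).to_comp.comp h1)) : Computable fun k => B (k, a₀ * c k))
      fun k x hx => by
        have hx' := (hpi k x).mp (leastOf_iff.mp hx).1
        exact h4 k _ x hx' (ha₀ k x _ hx' (h2 k x hx'))
    refine ⟨1, one_pos, fun z => some (n z.1), const_random h5, half_of_forall hM1 fun k => ?_⟩
    refine const_prob ?_
    rw [← classes_ncard hD hpi]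
    exact h6 k
  tfae_have 5 → 4 := by
    rintro ⟨δ, h0, R, h1, h2⟩
    obtain ⟨R', h3, h4⟩ := bound_of_count hp hpf (u := fun z : ℕ × ℕ => 12 * u z.2 + e)
      hue h1 h0 (V := fun k c => IsogSmallPoints D k c) (fun k t ht x hx => by
        refine ⟨x, hx, isog_refl hD hx, ?_⟩
        obtain ⟨y, hy⟩ := he k x _ hx (hu' k x hx)
        refine ⟨y, hy.trans ?_⟩
        exact_mod_cast le_mx (fun z : ℕ × ℕ => 12 * u z.2 + e) k (ht x ((hpi k x).mpr hx)))
    refine ⟨δ / 2, half_pos h0, R', h3, half_mono (fun k h => ?_) h2⟩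
    simp only [hps] at h
    exact h4 k h
  tfae_have 6 → 4 := by
    rintro ⟨δ, h0, R, h1, h2⟩
    obtain ⟨R', h3, h4⟩ := bound_of_count hlc hlf (u := fun z : ℕ × ℕ => 12 * u z.2 + e)
      hue h1 h0 (V := fun k c => IsogSmallPoints D k c) (fun k t ht x hx => by
        obtain ⟨x', h5, h6⟩ := exists_least (f := D.frob) ((hpi k x).mpr hx)
        have hx' := (hpi k x').mp (leastOf_iff.mp h5).1
        refine ⟨x', hx', (hD.faltings k x x' hx hx').mp h6.symm, ?_⟩
        obtain ⟨y, hy⟩ := he k x' _ hx' (hu' k x' hx')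
        refine ⟨y, hy.trans ?_⟩
        exact_mod_cast le_mx (fun z : ℕ × ℕ => 12 * u z.2 + e) k (ht x' h5))
    refine ⟨δ / 2, half_pos h0, R', h3, half_mono (fun k h => ?_) h2⟩
    simp only [← classes_ncard hD hpi] at h
    exact h4 k h
  tfae_have 4 → 2 := by
    rintro ⟨δ, h0, R, h1, h2⟩
    obtain ⟨q, hq⟩ := exists_nat_gt (2 / δ)
    obtain ⟨E, h3, h4, h5⟩ := list_of_random h1 (V := fun k c => IsogSmallPoints D k c)
      (fun k c c' h2 h3 => isog_mono h2 h3) q
    refine ⟨q + 1, E, h3, half_mono (fun k h => ⟨encard_of_atMost (h4 k), ?_⟩) h2⟩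
    refine h5 k (of_prob ?_ h)
    rw [div_lt_iff₀ h0] at hq
    exact hq
  tfae_finish

end Pool.Agent.Results.MP_fe3691_nt.RandomisedAlgorithms
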